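import Mathlib
import Pool.Agent.TH456.HN.Dens

set_option autoImplicit false

namespace Pool.Agent.Results.MP_3761db_nt.AlmostAllPowers

open Filter Topology Finset

/-- the distance `‖x‖` from `x` to the nearest integer -/
noncomputable def dz (x : ℝ) : ℝ := |x - round x|

/-- Lower bounds for `‖ξ e^n‖` (in particular for `‖e^n‖`, `ξ = 1`) for almost all `n`, for every real
`ξ ≠ 0`:
(1) if `n` is large and `8 ≤ m ≤ K`, `K log K ≤ log n`, at most `m` of the integers `k` in `[n, n + K]` satisfy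
`‖ξ e^k‖ ≤ exp(-50 n / m)`;
(2) for every `ε > 0` there is `C` such that, for all large `X`, at most `ε X` of the integers `n ≤ X` satisfy
`‖ξ e^n‖ ≤ exp(-C n log log n / log n)`;
(3) for every `η > 0` one has `‖ξ e^n‖ > exp(-n / (log n)^{1-η})` for all `n` outside a set of natural
density zero. -/
theorem result (ξ : ℝ) (hξ : ξ ≠ 0) :
    (∃ n₀ : ℕ, ∀ n : ℕ, n₀ ≤ n → ∀ m K : ℕ, 8 ≤ m → m ≤ K → (K : ℝ) * Real.log K ≤ Real.log n →
      ((Icc n (n + K)).filter (fun k : ℕ => dz (ξ * Real.exp k) ≤ Real.exp (-(50 * n / m)))).card ≤ m) ∧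
    (∀ ε : ℝ, 0 < ε → ∃ C : ℝ, 0 < C ∧ ∃ X₀ : ℕ, ∀ X : ℕ, X₀ ≤ X →
      (((Icc 1 X).filter (fun n : ℕ => dz (ξ * Real.exp n) ≤
        Real.exp (-(C * n * Real.log (Real.log n) / Real.log n)))).card : ℝ) ≤ ε * X) ∧
    (∀ η : ℝ, 0 < η → Tendsto (fun X : ℕ => (((Icc 1 X).filter (fun n : ℕ => dz (ξ * Real.exp n) ≤
        Real.exp (-((n : ℝ) / Real.log n ^ (1 - η))))).card : ℝ) / X) atTop (𝓝 0)) :=
  ⟨TH456.TI.window3 ξ hξ, TH456.TI.density3 ξ hξ, TH456.TI.zero_density3 ξ hξ⟩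

end Pool.Agent.Results.MP_3761db_nt.AlmostAllPowers
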